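import Mathlib
import Pool.Agent.H917R2.BP.Stm

/-!
Task uni3 (helper708): almost invariant vectors.
-/

set_option autoImplicit false

open scoped ComplexOrder InnerProductSpace ComplexConjugate Topology
open Filter

noncomputable section

namespace Pool.Agent.H708R4.BP

open H917R2.BP H759R2.Kad H710R2.DP H917R2.Tr

theorem norm_unit {K : Type} [NormedAddCommGroup K] [InnerProductSpace ℂ K] [CompleteSpace K]
    (u : BH K) (h : star u * u = 1) : ‖u‖ ≤ 1 := by
  have h1 : ‖star u * u‖ = ‖u‖ * ‖u‖ := CStarRing.norm_star_mul_self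
  rw [h] at h1
  have h2 : ‖(1 : BH K)‖ ≤ 1 := ContinuousLinearMap.norm_id_le
  have h3 : 0 ≤ ‖u‖ := norm_nonneg _
  nlinarith

theorem norm_proj {K : Type} [NormedAddCommGroup K] [InnerProductSpace ℂ K] [CompleteSpace K]
    (z : BH K) (h1 : star z = z) (h2 : z * z = z) : ‖z‖ ≤ 1 := by
  have h3 : ‖star z * z‖ = ‖z‖ * ‖z‖ := CStarRing.norm_star_mul_self
  rw [h1, h2] at h3
  by_contra hcon
  push Not at hcon
  nlinarith

theorem t_uni3 (hR : S_tenR) : S_uni3 := by
  intro K 𝓗 _ _ _ _ _ _ T N z hz hfam ι _ u hu ε hε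
  classical
  obtain ⟨-, -, -, -, hRmul, -, hR1, hLR, hLn, hRn, -, -, -, -⟩ := hR K 𝓗 T
  obtain ⟨hzp, hzN, hzc⟩ := hz
  have hzs : star z = z := hzp.1
  have hzz : z * z = z := hzp.2
  have hzn : ‖z‖ ≤ 1 := norm_proj z hzs hzz
  -- the family with the unit added
  set u' : Option ι → BH K := fun o => o.elim 1 u with hu'
  have hu'F : UniF N u' := by
    intro o
    cases o with
    | none =>
      refine ⟨?_, ?_, ?_⟩
      · exact one_mem N
      · simp [hu']
      · simp [hu']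
    | some i => exact hu i
  have hcard := hfam (Option ι) u' hu'F
  set m' : ℝ := (Fintype.card (Option ι) : ℝ) with hm'
  have hm1 : 1 ≤ m' := by
    rw [hm', Fintype.card_option]
    push_cast
    have : (0:ℝ) ≤ Fintype.card ι := by positivity
    linarith
  set δ : ℝ := min (1 / 2) (ε ^ 2 / 4) with hδ
  have hδ0 : 0 < δ := lt_min (by norm_num) (by positivity)
  have hδ1 : δ ≤ 1 / 2 := min_le_left _ _
  have hδ2 : δ ≤ ε ^ 2 / 4 := min_le_right _ _
  obtain ⟨h0, hh0, hbig⟩ := ContinuousLinearMap.exists_lt_apply_of_lt_opNorm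
    (Phi T (fun i => z * u' i)) (r := m' - δ) (by linarith)
  set h1 : 𝓗 := T.L z (T.R z h0) with hh1
  -- the operators `W o`
  set W : Option ι → BH 𝓗 := fun o => T.L (u' o) * T.R (u' o) with hW
  have hterm : ∀ o, (T.L (z * u' o) * T.R (z * u' o)) h0 = W o h1 := by
    intro o
    have e1 : z * u' o = u' o * z := hzc _ (hu'F o).1
    have e2 : T.L (z * u' o) * T.R (z * u' o) = W o * (T.L z * T.R z) := by
      rw [e1, map_mul, hRmul, hW]
      calc T.L (u' o) * T.L z * (T.R (u' o) * T.R z)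
          = T.L (u' o) * (T.L z * T.R (u' o)) * T.R z := by noncomm_ring
        _ = T.L (u' o) * (T.R (u' o) * T.L z) * T.R z := by rw [hLR]
        _ = T.L (u' o) * T.R (u' o) * (T.L z * T.R z) := by noncomm_ring
    rw [e2]
    rfl
  have hPhi : Phi T (fun i => z * u' i) h0 = ∑ o, W o h1 := by
    unfold Phi
    rw [ContinuousLinearMap.sum_apply]
    exact Finset.sum_congr rfl fun o _ => hterm o
  rw [hPhi] at hbig
  have hLle : ∀ (x : BH K) (v : 𝓗), ‖x‖ ≤ 1 → ‖T.L x v‖ ≤ ‖v‖ := by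
    intro x v hx
    calc ‖T.L x v‖ ≤ ‖T.L x‖ * ‖v‖ := (T.L x).le_opNorm v
      _ ≤ 1 * ‖v‖ := mul_le_mul_of_nonneg_right ((hLn x).trans hx) (norm_nonneg _)
      _ = ‖v‖ := one_mul _
  have hRle : ∀ (x : BH K) (v : 𝓗), ‖x‖ ≤ 1 → ‖T.R x v‖ ≤ ‖v‖ := by
    intro x v hx
    calc ‖T.R x v‖ ≤ ‖T.R x‖ * ‖v‖ := (T.R x).le_opNorm v
      _ ≤ 1 * ‖v‖ := mul_le_mul_of_nonneg_right ((hRn x).trans hx) (norm_nonneg _)
      _ = ‖v‖ := one_mul _
  have hWle : ∀ o (v : 𝓗), ‖W o v‖ ≤ ‖v‖ := by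
    intro o v
    have hn := norm_unit (u' o) (hu'F o).2.1
    exact (hLle _ _ hn).trans (hRle _ _ hn)
  have hh1n : ‖h1‖ ≤ 1 := ((hLle _ _ hzn).trans (hRle _ _ hzn)).trans hh0.le
  have hh1ne : h1 ≠ 0 := by
    intro h
    rw [h] at hbig
    simp only [map_zero, Finset.sum_const_zero, norm_zero] at hbig
    linarith
  have hh1p : 0 < ‖h1‖ := norm_pos_iff.mpr hh1ne
  set h : 𝓗 := ((‖h1‖⁻¹ : ℝ) : ℂ) • h1 with hh
  have hnh : ‖h‖ = 1 := by
    rw [hh, norm_smul, Complex.norm_real, Real.norm_eq_abs, abs_of_pos (inv_pos.mpr hh1p),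
      inv_mul_cancel₀ hh1p.ne']
  have hsum : m' - δ ≤ ‖∑ o, W o h‖ := by
    have e1 : ∑ o, W o h = ((‖h1‖⁻¹ : ℝ) : ℂ) • ∑ o, W o h1 := by
      rw [Finset.smul_sum]
      apply Finset.sum_congr rfl
      intro o _
      rw [hh, map_smul]
    rw [e1, norm_smul, Complex.norm_real, Real.norm_eq_abs, abs_of_pos (inv_pos.mpr hh1p)]
    have e2 : 1 ≤ ‖h1‖⁻¹ := (one_le_inv₀ hh1p).mpr hh1n
    have e3 : 0 ≤ ‖∑ o, W o h1‖ := norm_nonneg _
    nlinarith
  have hLzh1 : T.L z h1 = h1 := by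
    have : (T.L z * T.L z) (T.R z h0) = T.L z (T.R z h0) := by rw [← map_mul, hzz]
    exact this
  have hRzh1 : T.R z h1 = h1 := by
    have e1 : (T.R z * (T.L z * T.R z)) h0 = (T.L z * T.R z) h0 := by
      rw [← mul_assoc, ← hLR, mul_assoc, ← hRmul, hzz]
    exact e1
  refine ⟨h, hnh, ?_, ?_, ?_⟩
  · rw [hh, map_smul, hLzh1]
  · rw [hh, map_smul, hRzh1]
  · intro i
    have hWi : T.L (u i) (T.R (u i) h) = W (some i) h := rfl
    rw [hWi]
    have hW0 : W none h = h := by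
      have : W none = 1 := by
        rw [hW]
        show T.L 1 * T.R 1 = 1
        rw [map_one, hR1, one_mul]
      rw [this]; rfl
    -- split the sum
    have hsplit : ∑ o, W o h = h + (W (some i) h + ∑ j ∈ Finset.univ.erase i, W (some j) h) := by
      rw [Fintype.sum_option, hW0, ← Finset.add_sum_erase _ _ (Finset.mem_univ i)]
    have hrest : ‖∑ j ∈ Finset.univ.erase i, W (some j) h‖ ≤ m' - 2 := by
      refine (norm_sum_le _ _).trans ?_
      refine (Finset.sum_le_sum (fun j _ => (hWle (some j) h).trans hnh.le)).trans ?_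
      rw [Finset.sum_const, nsmul_eq_mul, mul_one, Finset.card_erase_of_mem (Finset.mem_univ i),
        Finset.card_univ, hm', Fintype.card_option]
      have hpos : 1 ≤ Fintype.card ι := Fintype.card_pos_iff.mpr ⟨i⟩
      rw [Nat.cast_sub hpos]
      push_cast
      linarith
    have h2 : 2 - δ ≤ ‖h + W (some i) h‖ := by
      rw [hsplit, ← add_assoc] at hsum
      have := norm_add_le (h + W (some i) h) (∑ j ∈ Finset.univ.erase i, W (some j) h)
      linarith
    have hpar := parallelogram_law_with_norm ℂ h (W (some i) h)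
    have hWn := hWle (some i) h
    rw [hnh] at hWn hpar
    have h3 : ‖h - W (some i) h‖ * ‖h - W (some i) h‖ ≤ ε ^ 2 := by
      have h4 : 0 ≤ ‖W (some i) h‖ := norm_nonneg _
      nlinarith
    rw [norm_sub_rev]
    have h5 : 0 ≤ ‖h - W (some i) h‖ := norm_nonneg _
    nlinarith

end Pool.Agent.H708R4.BP
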